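import Pool.Agent.PLX.StmtsA

/-!
Squad PLX (MP_1fc801_co), row RNK: the real rank of a discrete group is at least the rational rank.
-/

set_option autoImplicit false

namespace Pool.Agent.PLX.H75

open Module

theorem exists_delta {A : Type} [AddCommGroup A] [Module ℚ A] {E : Type} [NormedAddCommGroup E]
    [NormedSpace ℝ E] (f : A →+ E)
    (V : AddSubgroup A) (h : Dsc f V) : ∃ δ : ℝ, 0 < δ ∧ ∀ x ∈ V, ‖f x‖ < δ → x = 0 := by
  classical
  set S : Finset A := (bl f V 1).filter fun x => x ≠ 0 with hS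
  rcases S.eq_empty_or_nonempty with he | hne
  · refine ⟨1, one_pos, fun x hx hx1 => ?_⟩
    by_contra h0
    have h1 : x ∈ S := by
      rw [hS, Finset.mem_filter, mem_bl h]
      exact ⟨⟨hx, hx1.le⟩, h0⟩
    rw [he] at h1
    exact absurd h1 (Finset.notMem_empty x)
  · obtain ⟨y, hy, hmin⟩ := Finset.exists_min_image S (fun x => ‖f x‖) hne
    have hy' := hy
    rw [hS, Finset.mem_filter, mem_bl h] at hy'
    refine ⟨‖f y‖, norm_pos h hy'.1.1 hy'.2, fun x hx hx1 => ?_⟩
    by_contra h0
    have h1 : x ∈ S := by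
      rw [hS, Finset.mem_filter, mem_bl h]
      exact ⟨⟨hx, hx1.le.trans hy'.1.2⟩, h0⟩
    exact absurd (hmin x h1) (not_le.2 hx1)

theorem rnk : RnkStmt := by
  intro A _ _ E _ _ f V r h
  classical
  set F : Submodule ℝ E := Submodule.span ℝ (f '' (bl f V r : Set A)) with hF
  have : FiniteDimensional ℝ F :=
    FiniteDimensional.span_of_finite ℝ ((bl f V r).finite_toSet.image f)
  have : ProperSpace F := FiniteDimensional.proper_real F
  let L : Submodule ℤ F := AddSubgroup.toIntSubmodule ((V.map f).comap F.subtype.toAddMonoidHom)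
  have hL : ∀ y : F, y ∈ L ↔ ∃ x ∈ V, f x = (y : E) := fun y => Iff.rfl
  obtain ⟨δ, hδ, hδ'⟩ := exists_delta f V h
  have : DiscreteTopology L := by
    refine discreteTopology_of_isOpen_singleton_zero ?_
    rw [Metric.isOpen_singleton_iff]
    refine ⟨δ, hδ, fun y hy => ?_⟩
    obtain ⟨x, hx, hxy⟩ := (hL y.1).1 y.2
    rw [dist_zero_right] at hy
    have h1 : ‖f x‖ < δ := by
      rw [hxy]
      exact hy
    have h2 := hδ' x hx h1
    rw [h2, map_zero] at hxy
    apply Subtype.ext
    apply Subtype.ext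
    exact hxy.symm
  have : IsZLattice ℝ L := by
    refine ⟨?_⟩
    rw [eq_top_iff, ← Submodule.span_span_coe_preimage (R := ℝ) (s := f '' (bl f V r : Set A))]
    apply Submodule.span_mono
    rintro y ⟨x, hx, hxy⟩
    exact (hL y).2 ⟨x, ((mem_bl h).1 hx).1, hxy⟩
  have : Module.Finite ℤ L := ZLattice.module_finite ℝ L
  rw [← ZLattice.rank ℝ L]
  obtain ⟨b, hb, hspan, hli⟩ := exists_linearIndependent ℚ (bl f V r : Set A)
  have : Fintype b := ((bl f V r).finite_toSet.subset hb).fintype
  have hcard : finrank ℚ (bs f V r) = Fintype.card b := by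
    unfold bs
    rw [← hspan, finrank_span_set_eq_card hli, Set.toFinset_card]
  rw [hcard]
  let y : b → L := fun x => ⟨⟨f x.1, Submodule.subset_span ⟨x.1, hb x.2, rfl⟩⟩,
    (hL _).2 ⟨x.1, ((mem_bl h).1 (hb x.2)).1, rfl⟩⟩
  have hy : LinearIndependent ℤ y := by
    rw [Fintype.linearIndependent_iff]
    intro g hg
    have h1 : f (∑ i, g i • (i : A)) = 0 := by
      have h2 := congrArg (fun z : L => ((z : F) : E)) hg
      simp only [y, Submodule.coe_sum, Submodule.coe_smul_of_tower, Submodule.coe_zero,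
        ZeroMemClass.coe_zero] at h2
      rw [map_sum]
      rw [← h2]
      exact Finset.sum_congr rfl fun i _ => by rw [map_zsmul]
    have h3 : ∑ i, g i • (i : A) = 0 := by
      refine eq_zero_of_norm h ?_ (by rw [h1, norm_zero])
      exact V.sum_mem fun i _ => V.zsmul_mem ((mem_bl h).1 (hb i.2)).1 _
    have h4 := (Fintype.linearIndependent_iff.1 hli) (fun i => (g i : ℚ)) (by
      rw [← h3]
      refine Finset.sum_congr rfl fun i _ => ?_
      exact Int.cast_smul_eq_zsmul ℚ (g i) (i : A))
    intro i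
    exact_mod_cast h4 i
  exact hy.fintype_card_le_finrank

end Pool.Agent.PLX.H75
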